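import Pool.Agent.R955.FD.Defs

/-!
Piece DRT of project FD (MP_0880e2_an): `D_I` on the line applied to a trigonometric polynomial times the kernel.
-/

set_option autoImplicit false

namespace Pool.Agent.HP981.FDDRT

open MeasureTheory Set Filter Topology
open scoped ENNReal FourierTransform
open Pool.Agent.R955.FD

universe u

variable {X : Type u} [NormedAddCommGroup X] [NormedSpace ℂ X]

theorem F_sum [CompleteSpace X] (s : Finset ℤ) (g : ℤ → ℝ → ℂ) (hg : ∀ n ∈ s, Integrable (g n)) (c : ℤ → X) (ξ : ℝ) :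
    𝓕 (fun t => ∑ n ∈ s, g n t • c n) ξ = ∑ n ∈ s, 𝓕 (g n) ξ • c n := by
  rw [Real.fourier_eq]
  have h1 : ∀ v : ℝ, (Real.fourierChar (-(inner ℝ v ξ))) • ∑ n ∈ s, g n v • c n =
      ∑ n ∈ s, ((Real.fourierChar (-(inner ℝ v ξ))) • g n v) • c n := by
    intro v
    rw [Finset.smul_sum]
    exact Finset.sum_congr rfl fun n _ => (smul_assoc _ _ _).symm
  simp_rw [h1]
  rw [integral_finsetSum]
  · refine Finset.sum_congr rfl fun n _ => ?_
    rw [integral_smul_const, Real.fourier_eq]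
  · intro n hn
    exact ((Real.fourierIntegral_convergent_iff ξ).2 (hg n hn)).smul_const (c n)

theorem Finv_sum [CompleteSpace X] (s : Finset ℤ) (g : ℤ → ℝ → ℂ) (hg : ∀ n ∈ s, Integrable (g n)) (c : ℤ → X) (ξ : ℝ) :
    𝓕⁻ (fun t => ∑ n ∈ s, g n t • c n) ξ = ∑ n ∈ s, 𝓕⁻ (g n) ξ • c n := by
  rw [Real.fourierInv_eq_fourier_neg, F_sum s g hg c]
  exact Finset.sum_congr rfl fun n _ => by rw [Real.fourierInv_eq_fourier_neg]

theorem trig_mul (φ : ℤ → SchwartzMap ℝ ℂ) (h1 : ∀ n t, φ n t = ch (n : ℝ) t * φ 0 t) (c : ℤ →₀ X) (t : ℝ) :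
    φ 0 t • trig c t = ∑ n ∈ c.support, φ n t • c n := by
  unfold trig
  rw [Finsupp.sum, Finset.smul_sum]
  refine Finset.sum_congr rfl fun n _ => ?_
  rw [smul_smul, h1 n t, mul_comm]

theorem isSc_mul (φ : ℤ → SchwartzMap ℝ ℂ) (h1 : ∀ n t, φ n t = ch (n : ℝ) t * φ 0 t)
    (h2 : ∀ (n : ℤ) (ξ : ℝ), 1 / 4 ≤ |ξ - n| → 𝓕 (fun t => φ n t) ξ = 0) (c : ℤ →₀ X) :
    IsSc (fun t => φ 0 t • trig c t) := by
  let e := c.support.equivFin
  refine ⟨c.support.card, fun j => φ (e.symm j : ℤ), fun j => c (e.symm j : ℤ), fun j => ?_, ?_⟩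
  · refine HasCompactSupport.intro (K := Icc (((e.symm j : ℤ) : ℝ) - 1 / 4) (((e.symm j : ℤ) : ℝ) + 1 / 4))
      isCompact_Icc fun ξ hξ => ?_
    apply h2
    by_contra hlt
    push Not at hlt
    rw [abs_lt] at hlt
    exact hξ ⟨by linarith [hlt.1], by linarith [hlt.2]⟩
  · funext t
    rw [trig_mul φ h1 c t]
    rw [← Finset.sum_coe_sort c.support (fun n => φ n t • c n)]
    exact (Equiv.sum_comp e.symm (fun n : c.support => φ (n : ℤ) t • c (n : ℤ))).symm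

theorem floor_eq {n : ℤ} {ξ : ℝ} (h : |ξ - n| < 1 / 4) : ⌊ξ + 1 / 2⌋ = n := by
  rw [abs_lt] at h
  rw [Int.floor_eq_iff]
  exact ⟨by linarith [h.1], by linarith [h.2]⟩

theorem isIntPart' (J : ℕ → Set ℤ) (hJ : IsIntPart J) :
    IsIntPart (fun i => {ξ : ℝ | ⌊ξ + 1 / 2⌋ ∈ J i}) := by
  obtain ⟨h1, h2, h3⟩ := hJ
  refine ⟨fun i => ?_, fun i j hij => ?_, fun x => h3 ⌊x + 1 / 2⌋⟩
  · have hm : Monotone (fun ξ : ℝ => ⌊ξ + 1 / 2⌋) := fun a b hab => Int.floor_le_floor (by linarith)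
    exact (h1 i).preimage_mono hm
  · rw [Set.disjoint_left]
    intro x hx hx'
    exact (Set.disjoint_left.1 (h2 i j hij)) hx hx'

open Classical in
theorem DR_eq [CompleteSpace X] (φ : ℤ → SchwartzMap ℝ ℂ) (h1 : ∀ n t, φ n t = ch (n : ℝ) t * φ 0 t)
    (h2 : ∀ (n : ℤ) (ξ : ℝ), 1 / 4 ≤ |ξ - n| → 𝓕 (fun t => φ n t) ξ = 0) (c : ℤ →₀ X) (I : Set ℤ) :
    DR {ξ : ℝ | ⌊ξ + 1 / 2⌋ ∈ I} (fun t => φ 0 t • trig c t) = fun t => φ 0 t • DT I c t := by
  funext t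
  unfold DR DT
  rw [trig_mul φ h1 _ t]
  have hF : 𝓕 (fun t => φ 0 t • trig c t) = fun ξ => ∑ n ∈ c.support, 𝓕 (fun t => φ n t) ξ • c n := by
    funext ξ
    have : (fun t => φ 0 t • trig c t) = fun t => ∑ n ∈ c.support, (fun t => φ n t) t • c n := by
      funext t; exact trig_mul φ h1 c t
    rw [this]
    exact F_sum c.support (fun n t => φ n t) (fun n _ => (φ n).integrable) c ξ
  have hI : ({ξ : ℝ | ⌊ξ + 1 / 2⌋ ∈ I}).indicator (𝓕 (fun t => φ 0 t • trig c t)) =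
      fun ξ => ∑ n ∈ c.support.filter (fun n => n ∈ I), 𝓕 (fun t => φ n t) ξ • c n := by
    rw [hF]
    funext ξ
    rw [Finset.sum_filter]
    by_cases hξ : ⌊ξ + 1 / 2⌋ ∈ I
    · rw [indicator_of_mem (by exact hξ)]
      refine Finset.sum_congr rfl fun n _ => ?_
      by_cases hn : n ∈ I
      · rw [if_pos hn]
      · rw [if_neg hn, h2 n ξ, zero_smul]
        by_contra hlt
        push Not at hlt
        exact hn (floor_eq hlt ▸ hξ)
    · rw [indicator_of_notMem (by exact hξ)]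
      refine (Finset.sum_eq_zero fun n _ => ?_).symm
      by_cases hn : n ∈ I
      · rw [if_pos hn, h2 n ξ, zero_smul]
        by_contra hlt
        push Not at hlt
        exact hξ ((floor_eq hlt).symm ▸ hn)
      · rw [if_neg hn]
  rw [hI, Finv_sum _ (fun n => 𝓕 (fun t => φ n t)) (fun n _ => (𝓕 (φ n)).integrable) c t]
  have hs : (c.filter fun n => n ∈ I).support = c.support.filter (fun n => n ∈ I) := by
    ext n
    simp [and_comm]
  rw [hs]
  refine Finset.sum_congr rfl fun n hn => ?_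
  rw [Finset.mem_filter] at hn
  have hinv : 𝓕⁻ (𝓕 (fun t => φ n t)) t = φ n t := by
    have := (φ n).continuous.fourierInv_fourier_eq (φ n).integrable (𝓕 (φ n)).integrable
    exact congrFun this t
  rw [hinv, Finsupp.filter_apply, if_pos hn.2]

theorem t_DRT : S_DRT.{u} := by
  intro X _ _ _ φ h1 h2 J hJ
  exact ⟨fun i => {ξ : ℝ | ⌊ξ + 1 / 2⌋ ∈ J i}, isIntPart' J hJ, fun c =>
    ⟨isSc_mul φ h1 h2 c, fun i => DR_eq φ h1 h2 c (J i)⟩⟩

end Pool.Agent.HP981.FDDRT
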